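import Mathlib
import Pool.Agent.H668R2.Dehn.Basic
import Pool.Agent.H668R2.Dehn.Diam
import Pool.Agent.H668R2.Dehn.Model
import Pool.Agent.H668R2.Dehn.TM

set_option autoImplicit false

/-!
# Dehn presentations of hyperbolic groups cannot be computed in polynomial time

For every `n ≥ 1` the presentation
`⟨a, s, t, y | a², [s,t], [a, tat⁻¹], sas⁻¹ = a·tat⁻¹, yty⁻¹ = t², ysy⁻¹ = s², yay⁻¹ = a, yⁿ⟩`
of size `n + 39` defines a finite group of order at least `2^(2^n - 2)`: it maps onto a group of
affine maps of the space of functions on `𝔽_{2^n} \ {0, 1}`. On the other hand a linear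
isoperimetric inequality and an area form show that a finite group with a Dehn presentation of
size `s`, over any finite set of generators, has diameter at most `168 s² + 3`, hence order at
most `2^(600 (s+1)³)`. So every Dehn presentation of the group has size at least `c · 2^(n/3)`, and
it cannot be written down in polynomial time.
-/

namespace Pool.Agent.Results.MP_0fd394_lc.NoPolyTime

open Pool.Agent.H668R2.Dehn

/-- Finite groups are hyperbolic. -/
theorem isHyperbolic_of_finite (G : Type) [Group G] [Finite G] : IsHyperbolic G := by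
  refine ⟨Set.univ, Set.finite_univ, by simp, ?_⟩
  obtain ⟨δ, hδ⟩ : ∃ δ : ℕ, ∀ v w : G, (cayleyGraph (Set.univ : Set G)).dist v w ≤ δ := by
    obtain ⟨b, hb⟩ := (Set.finite_range fun x : G × G =>
      (cayleyGraph (Set.univ : Set G)).dist x.1 x.2).bddAbove
    exact ⟨b, fun v w => hb ⟨(v, w), rfl⟩⟩
  refine ⟨δ, fun x y z p q r _ _ _ v _ => ⟨y, Or.inl q.start_mem_support, hδ v y⟩⟩

/-- No Turing machine that runs in polynomial time computes Dehn presentations, on any set of
generators, of hyperbolic groups given by finite presentations. -/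
theorem any_generators : ¬ ∃ (M : Turing.TM2ComputableAux Sym Sym) (p : Polynomial ℕ),
    ∀ (n : ℕ) (R : Rels n), IsHyperbolic (Grp R) → ∃ (m : ℕ) (R' : Rels m),
      IsDehnPresentationOf R R' ∧ Outputs M R R' (p.eval (size R)) := by
  rintro ⟨M, p, h⟩
  obtain ⟨C, hC⟩ := output_length M
  obtain ⟨q, hq⟩ : ∃ q : Polynomial ℕ, q = 600 * (4 * Polynomial.X + 200 +
      Polynomial.C C * p.comp (Polynomial.X + 39) + 1) ^ 3 + 2 := ⟨_, rfl⟩
  obtain ⟨N, hN⟩ := exists_lt_two_pow q
  obtain ⟨n, hn⟩ : ∃ n, n = max N 1 := ⟨_, rfl⟩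
  have hn0 : 0 < n := by omega
  have h1 := hN n (by omega)
  have hfin := fam_finite hn0
  obtain ⟨m, R', ⟨⟨e⟩, hD⟩, hout⟩ := h 4 (fam n) (isHyperbolic_of_finite _)
  have hfin' : Finite (Grp R') := Finite.of_equiv _ e.symm.toEquiv
  have h2 := card_fam hn0
  rw [← Nat.card_congr e.toEquiv] at h2
  have h3 := log_card_bound R' hD h2
  have h4 := hC _ _ _ hout
  have h5 := size_le_code R'
  have h6 := length_code_fam n
  rw [size_fam] at h4
  have h7 : size R' + 1 ≤ 4 * n + 200 + C * p.eval (n + 39) + 1 := by omega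
  have h8 : q.eval n = 600 * (4 * n + 200 + C * p.eval (n + 39) + 1) ^ 3 + 2 := by
    rw [hq]
    simp [Polynomial.eval_add, Polynomial.eval_mul, Polynomial.eval_pow, Polynomial.eval_comp]
  have h9 : 600 * (size R' + 1) ^ 3 ≤ 600 * (4 * n + 200 + C * p.eval (n + 39) + 1) ^ 3 :=
    Nat.mul_le_mul_left _ (Nat.pow_le_pow_left h7 3)
  omega

/-- There is no Turing machine that, given a finite presentation `⟨X | R⟩` of a word-hyperbolic
group, outputs in time polynomial in the size of the presentation a finite set `R'` of words over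
`X^{±1}` with the same normal closure such that `⟨X | R'⟩` is a Dehn presentation. The same holds
if the output may be any Dehn presentation, on any finite set of generators, of a group isomorphic
to the given group. -/
theorem result :
    (¬ ∃ (M : Turing.TM2ComputableAux Sym Sym) (p : Polynomial ℕ),
      ∀ (n : ℕ) (R : Rels n), IsHyperbolic (Grp R) → ∃ R' : Rels n,
        IsDehnPresentationFor R R' ∧ Outputs M R R' (p.eval (size R))) ∧
    (¬ ∃ (M : Turing.TM2ComputableAux Sym Sym) (p : Polynomial ℕ),
      ∀ (n : ℕ) (R : Rels n), IsHyperbolic (Grp R) → ∃ (m : ℕ) (R' : Rels m),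
        IsDehnPresentationOf R R' ∧ Outputs M R R' (p.eval (size R))) := by
  refine ⟨?_, any_generators⟩
  rintro ⟨M, p, h⟩
  refine any_generators ⟨M, p, fun n R hR => ?_⟩
  obtain ⟨R', ⟨h1, h2⟩, h3⟩ := h n R hR
  exact ⟨n, R', ⟨⟨QuotientGroup.quotientMulEquivOfEq h1⟩, h2⟩, h3⟩

end Pool.Agent.Results.MP_0fd394_lc.NoPolyTime
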